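import Pool.Agent.N561.EK.Stm
import Pool.Agent.N561.G.Geo

/-!
# EK/18: the value at a critical configuration is the maximal volume of the angle structures

The generic lemmas of `Pool.Agent.N561.G.Geo` are used with one kind of vertices (`kf0`) and with
the parameter `dst` at every edge.
-/

set_option autoImplicit false

namespace Pool.Agent.N277.EK

open Pool.Agent.TH563.UV
open Pool.Agent.TH563.V
open Pool.Agent.W711.HT hiding XX
open Pool.Agent.N561
open Pool.Agent.N561.EK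
open Pool.Agent.N561.G
open Pool.Agent.W571.AR (eqn')
open Pool.Agent.TH609.UV (VL vt_re vl_im wt_eq vertex)
open scoped Real

/-- one kind of vertices -/
def kf0 (_ : Bool) (_ : ℕ) (_ : ℤ) : ℕ := 0

/-- the parameter of every edge -/
noncomputable def e0 (_ _ : ℕ) : ℂ → ℂ → ℂ := dst

lemma mem_D1 {b : Bool} {a : ℤ} {z G : ℂ} (h : VE b a z G) : z ∈ D1 := by
  cases b with
  | true =>
    rw [h.1 rfl]
    refine ⟨?_, ?_⟩
    · rw [norm_zero]; norm_num
    · rw [Complex.zero_im, abs_zero]; norm_num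
  | false =>
    obtain ⟨h1, h2, -⟩ := h.2 rfl
    obtain ⟨k1, k2, -⟩ := h1
    refine ⟨k1, ?_⟩
    rw [abs_of_pos h2]
    exact k2

lemma vl_ve {b : Bool} {a : ℤ} {z G l : ℂ} (h : VE b a z G) (hG : G = -(1 / (2 * π)) * l) :
    VL b a z l :=
  ⟨h.1, fun hb => eqn' _ _ _ _ hG (h.2 hb).2.2⟩

/-- the critical configurations are solutions -/
theorem inde (hE : EFE) : ∀ p : PB, CE p → p.rz ∈ D1 →
      p.gs sg = -(1 / (2 * π)) * lgv kf0 e0 0 p ∧ hpv kf0 e0 0 p ∧ lcv kf0 e0 0 p ∧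
      2 * π * (p.vl sg).re = hsv kf0 e0 0 p + p.rz.im * (lgv kf0 e0 0 p).im
  | .vx b a z, _, _ => by
      refine ⟨?_, trivial, trivial, ?_⟩
      · simp [PB.gs, lgv]
      · simp [PB.vl, hsv, lgv]
  | .br t d, hCr, hP => by
      obtain ⟨hC1, hC2, hC3⟩ := hCr
      have hPt : t.rz ∈ D1 := hP
      have hPd : d.rz ∈ D1 := mem_D1 hC3
      obtain ⟨i1, i2, i3, i4⟩ := inde hE t hC1 hPt
      obtain ⟨j1, j2, j3, j4⟩ := inde hE d hC2 hPd
      obtain ⟨e1, e2, e3, e4⟩ := hE d.rz hPd t.rz hPt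
      have hV : VL d.bl d.wt d.rz (Lg (uu kf0 e0 0 t d) d.rz + lgv kf0 e0 0 d) := by
        refine vl_ve hC3 ?_
        have h2 : deriv (fun w => sg w t.rz) d.rz =
          -(1 / (2 * π)) * Lg (uu kf0 e0 0 t d) d.rz := e2
        rw [j1, h2]
        ring
      have hI := vt_re hV
      rw [Complex.add_im] at hI
      refine ⟨?_, ⟨i2, j2, e1⟩, ⟨i3, j3, hV⟩, ?_⟩
      · have h3 : deriv (fun w => sg d.rz w) t.rz =
          -(1 / (2 * π)) * Lg (uu kf0 e0 0 t d) t.rz := e3
        simp only [PB.gs, lgv]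
        rw [i1, h3]
        ring
      · have h4 : 2 * π * (sg d.rz t.rz).re =
          hv d.rz t.rz (uu kf0 e0 0 t d) +
            d.rz.im * (Lg (uu kf0 e0 0 t d) d.rz).im +
            t.rz.im * (Lg (uu kf0 e0 0 t d) t.rz).im := e4
        have h5 : hsv kf0 e0 (kc kf0 d) d = hsv kf0 e0 0 d := rfl
        simp only [PB.vl, hsv, lgv, PB.rz]
        rw [Complex.add_im, h5]
        simp only [Complex.add_re]
        linear_combination i4 + hI + j4 + h4

/-- **EK/18**: the value at a critical configuration is the maximal volume of the angle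
structures -/
theorem geoe : S_GEOE := by
  intro hE p hCr hV hnc
  obtain ⟨i1, i2, i3, i4⟩ := inde hE p hCr (mem_D1 hV)
  have hL : VL p.bl p.wt p.rz (lgv kf0 e0 0 p) := vl_ve hV i1
  have hI' := vt_re hL
  have hval : 2 * π * (vt p.bl p.wt p.rz + p.vl sg).re = hsv kf0 e0 0 p := by
    rw [Complex.add_re]
    linear_combination hI' + i4
  have hvol := agv_vol kf0 e0 p 0 i2
  obtain ⟨g1, g2⟩ := agv_fl kf0 e0 0 p i2
  rw [hval]
  constructor
  · refine ⟨agv kf0 e0 0 p, agv_shape kf0 e0 p 0, ⟨agv_isok kf0 e0 p 0 i2 i3, ?_⟩, hvol⟩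
    rw [agv_wt, agv_bl]
    refine vokw g1 fun hb => ?_
    rw [g2]
    exact vl_im hL hb
  · rintro W ⟨y, hshape, hy, rfl⟩
    have h1 := vol_LLv kf0 e0 Pool.Agent.W120.VC.tet p 0 i2 y hshape hy.1
    have h2 := LLv_eq kf0 e0 p 0 i2 i3 y hshape hy.1
    have h3 := vertex p.bl p.rz p.wt (elv kf0 e0 0 p y) (elv_pos kf0 e0 0 p y hshape hy.1)
      (by rw [elv_map kf0 e0 0 p y hshape, ← (wt_eq p y hshape).1, ← (wt_eq p y hshape).2]
          exact hy.2)
      (by rw [elv_lg kf0 e0 0 p y hshape]; exact hL)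
    rw [h3] at h2
    rw [h2] at h1
    linarith

end Pool.Agent.N277.EK
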